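import Pool.Agent.Results.MP_d7bfcb_an.FlatReach
import Pool.Agent.Y310.PR.Geo

set_option autoImplicit false

open Set Filter Topology

namespace Pool.Agent.Results.MP_d7bfcb_an.EveryDimensionFromFive

open Pool.Agent.Results.MP_d7bfcb_an.FlatReach
open Pool.Agent.Y310.PR (prj inj pt prj_pt pt_prj pt_zero pt_succ prj_apply)

/-- The extension of a family to one more dimension: the first field moves only the new
coordinate, with speed `1`, the second one moves only the new coordinate, with speed `-1`, and the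
fields of the family do not move the new coordinate. -/
noncomputable def ext {n k : ℕ} (f : Fin k → E n → E n) : Fin (k + 2) → E (n + 1) → E (n + 1) :=
  Fin.cons (fun _ => pt 1 0) (Fin.cons (fun _ => pt (-1) 0) (fun i z => pt 0 (f i (prj n z))))

lemma ext_zero {n k : ℕ} (f : Fin k → E n → E n) (z : E (n + 1)) : ext f 0 z = pt 1 0 := rfl

lemma ext_one {n k : ℕ} (f : Fin k → E n → E n) (z : E (n + 1)) : ext f 1 z = pt (-1) 0 := rfl

lemma ext_old {n k : ℕ} (f : Fin k → E n → E n) (i : Fin k) (z : E (n + 1)) :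
    ext f i.succ.succ z = pt 0 (f i (prj n z)) := rfl

lemma cases_ext {k : ℕ} {P : Fin (k + 2) → Prop} (h0 : P 0) (h1 : P 1)
    (h2 : ∀ i : Fin k, P i.succ.succ) (j : Fin (k + 2)) : P j := by
  refine Fin.cases h0 (fun j => ?_) j
  exact Fin.cases h1 h2 j

lemma isPolynomial_ext {n k : ℕ} {f : Fin k → E n → E n} (hf : ∀ i, IsPolynomialField (f i))
    (j : Fin (k + 2)) : IsPolynomialField (ext f j) := by
  refine cases_ext (P := fun j => IsPolynomialField (ext f j)) ?_ ?_ (fun i => ?_) j
  · refine ⟨Fin.cons (MvPolynomial.C 1) (fun _ => 0), ?_⟩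
    intro x l
    refine Fin.cases ?_ (fun l => ?_) l
    · simp [ext_zero]
    · simp [ext_zero]
  · refine ⟨Fin.cons (MvPolynomial.C (-1)) (fun _ => 0), ?_⟩
    intro x l
    refine Fin.cases ?_ (fun l => ?_) l
    · simp [ext_one]
    · simp [ext_one]
  · obtain ⟨P, hP⟩ := hf i
    refine ⟨Fin.cons 0 (fun l => MvPolynomial.rename Fin.succ (P l)), ?_⟩
    intro x l
    refine Fin.cases ?_ (fun l => ?_) l
    · simp [ext_old]
    · simp only [ext_old, pt_succ, Fin.cons_succ, MvPolynomial.eval_rename]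
      rw [hP]
      rfl

lemma analytic_ext {n k : ℕ} {f : Fin k → E n → E n} (hf : ∀ i, AnalyticOnNhd ℝ (f i) univ)
    (j : Fin (k + 2)) : AnalyticOnNhd ℝ (ext f j) univ := by
  intro z _
  refine cases_ext (P := fun j => AnalyticAt ℝ (ext f j) z) ?_ ?_ (fun i => ?_) j
  · exact analyticAt_const
  · exact analyticAt_const
  · have h1 : AnalyticAt ℝ (f i) (prj n z) := hf _ _ trivial
    have h2 : AnalyticAt ℝ (fun z => f i (prj n z)) z := h1.comp ((prj n).analyticAt z)
    have h3 : AnalyticAt ℝ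
        (fun z => (inj n).toContinuousLinearMap (f i (prj n z))) z :=
      ((inj n).toContinuousLinearMap.analyticAt _).comp h2
    exact h3.add analyticAt_const

lemma deriv_pt {n : ℕ} {η : ℝ → E n} {v : E n} {g : ℝ → ℝ} {g' : ℝ} {S : Set ℝ} {s : ℝ}
    (h1 : HasDerivWithinAt η v S s) (h2 : HasDerivWithinAt g g' S s) :
    HasDerivWithinAt (fun s => pt (g s) (η s)) (pt g' v) S s :=
  ((inj n).toContinuousLinearMap.hasFDerivAt.comp_hasDerivWithinAt s h1).add
    (h2.smul_const (EuclideanSpace.single 0 1))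

lemma conn_of_reachable {n k : ℕ} {f : Fin k → E n → E n} {t : ℝ} {N : ℕ} {x : E n}
    (h : Reachable f t N x) : ∃ T, 0 < T ∧ T < t ∧ Conn f 0 T x := by
  obtain ⟨τ, i, ξ, h0, h1, h2, h3, h4, h5, h6⟩ := h
  have pos : ∀ M, M ≤ N → 0 < τ (M + 1) := by
    intro M
    induction M with
    | zero => intro hM; have := h1 0 hM; rw [h0] at this; exact this
    | succ M ih => intro hM; exact (ih (by omega)).trans (h1 (M + 1) hM)
  have key : ∀ M, M ≤ N → Conn f 0 (τ (M + 1)) (ξ M (τ (M + 1))) := by
    intro M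
    induction M with
    | zero =>
      intro hM
      have h := (Conn.refl (f := f) (a := (0 : E n))).step (θ := τ 1) (pos 0 hM) (i 0) (ξ 0) h4
        (fun s hs => by
          have := h3 0 hM s (by rw [h0]; exact hs)
          rw [h0] at this
          exact this)
      rw [zero_add] at h
      exact h
    | succ M ih =>
      intro hM
      have hM1 := h1 (M + 1) hM
      have h := (ih (by omega)).step (θ := τ (M + 1 + 1) - τ (M + 1)) (by linarith) (i (M + 1))
        (fun s => ξ (M + 1) (τ (M + 1) + s)) (by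
          simp only [add_zero]
          exact (h5 M (by omega)).symm) (fun s hs => by
          have h7 := h3 (M + 1) hM (τ (M + 1) + s) ⟨by linarith [hs.1], by linarith [hs.2]⟩
          have h8 : HasDerivWithinAt (fun s : ℝ => τ (M + 1) + s) 1
              (Icc 0 (τ (M + 1 + 1) - τ (M + 1))) s :=
            ((hasDerivAt_id s).const_add (τ (M + 1))).hasDerivWithinAt
          have h9 : MapsTo (fun s : ℝ => τ (M + 1) + s) (Icc 0 (τ (M + 1 + 1) - τ (M + 1)))
              (Icc (τ (M + 1)) (τ (M + 1 + 1))) := by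
            intro u hu
            exact ⟨by linarith [hu.1], by linarith [hu.2]⟩
          have h10 := h7.scomp s h8 h9
          rw [one_smul] at h10
          exact h10)
      have e : τ (M + 1) + (τ (M + 1 + 1) - τ (M + 1)) = τ (M + 1 + 1) := by ring
      simp only [e] at h
      exact h
  refine ⟨τ (N + 1), pos N le_rfl, h2, ?_⟩
  rw [← h6]
  exact key N le_rfl


lemma still {n : ℕ} {η : ℝ → E (n + 1)} {θ : ℝ} {b : E (n + 1)} {c : ℝ} (hθ : 0 < θ)
    (h0 : η 0 = b) (hd : ∀ s ∈ Icc 0 θ, HasDerivWithinAt η (pt c (0 : E n)) (Icc 0 θ) s) :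
    prj n (η θ) = prj n b := by
  have h1 : ∀ s ∈ Icc 0 θ, HasDerivWithinAt (fun s => prj n (η s)) 0 (Icc 0 θ) s := by
    intro s hs
    have h := (prj n).hasFDerivAt.comp_hasDerivWithinAt s (hd s hs)
    refine h.congr_deriv ?_
    simp
  have h2 := constant_of_has_deriv_right_zero (f := fun s => prj n (η s)) (a := 0) (b := θ)
    (fun s hs => (h1 s hs).continuousWithinAt)
    (fun s hs => (h1 s (Ico_subset_Icc_self hs)).mono_of_mem_nhdsWithin
      (Icc_mem_nhdsGE_of_mem hs)) θ ⟨hθ.le, le_rfl⟩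
  rw [← h0]
  exact h2

/-- A trajectory of the extended family projects to a trajectory, if the portions in which only
the new coordinate moves are cut out. -/
lemma conn_prj {n k : ℕ} {f : Fin k → E n → E n} {T : ℝ} {z : E (n + 1)}
    (h : Conn (ext f) 0 T z) :
    ∃ T', 0 ≤ T' ∧ T' ≤ T ∧ Conn f 0 T' (prj n z) ∧ (T' = 0 → prj n z = 0) := by
  induction h with
  | refl => exact ⟨0, le_rfl, le_rfl, by rw [map_zero]; exact Conn.refl, fun _ => map_zero _⟩
  | @step T θ b h hθ i η h0 hd ih =>
    obtain ⟨T', a1, a2, a3, a4⟩ := ih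
    revert hd
    refine cases_ext (P := fun i => (∀ s ∈ Icc 0 θ, HasDerivWithinAt η (ext f i (η s))
      (Icc 0 θ) s) → ∃ T', 0 ≤ T' ∧ T' ≤ T + θ ∧ Conn f 0 T' (prj n (η θ)) ∧
      (T' = 0 → prj n (η θ) = 0)) ?_ ?_ (fun i => ?_) i
    · intro hd
      have e := still hθ h0 hd
      rw [e]
      exact ⟨T', a1, by linarith, a3, a4⟩
    · intro hd
      have e := still hθ h0 hd
      rw [e]
      exact ⟨T', a1, by linarith, a3, a4⟩
    · intro hd
      refine ⟨T' + θ, by linarith, by linarith, ?_, fun h => by linarith⟩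
      refine a3.step hθ i (fun s => prj n (η s)) (by rw [h0]) (fun s hs => ?_)
      have h := (prj n).hasFDerivAt.comp_hasDerivWithinAt s (hd s hs)
      refine h.congr_deriv ?_
      simp [ext_old]

/-- A trajectory lifts to a trajectory which does not move the new coordinate. -/
lemma conn_lift {n k : ℕ} {f : Fin k → E n → E n} {T : ℝ} {b : E n} (h : Conn f 0 T b) :
    Conn (ext f) 0 T (pt 0 b) := by
  induction h with
  | refl =>
    have e : pt 0 (0 : E n) = 0 := by
      simp [pt]
    rw [e]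
    exact Conn.refl
  | @step T l b h hl i η hη0 hd ih =>
    refine ih.step hl i.succ.succ (fun s => pt 0 (η s)) (by rw [hη0]) (fun s hs => ?_)
    have d := deriv_pt (hd s hs) (hasDerivWithinAt_const s (Icc 0 l) (0 : ℝ))
    refine d.congr_deriv ?_
    rw [ext_old, prj_pt]

lemma stlc_ext {n k : ℕ} {f : Fin k → E n → E n} (hf : STLC f) : STLC (ext f) := by
  intro t ht
  have h := hf (t / 2) (by positivity)
  rw [mem_interior_iff_mem_nhds]
  have U1 : prj n ⁻¹' (Attainable f (t / 2)) ∈ 𝓝 (0 : E (n + 1)) :=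
    (prj n).continuous.continuousAt.preimage_mem_nhds
      (by rw [map_zero]; exact mem_interior_iff_mem_nhds.1 h)
  have U2 : {z : E (n + 1) | |z 0| < t / 2} ∈ 𝓝 (0 : E (n + 1)) :=
    IsOpen.mem_nhds (isOpen_lt (by fun_prop) continuous_const) (by simpa using ht)
  filter_upwards [U1, U2] with z hz1 hz2
  obtain ⟨N1, hN1⟩ := hz1
  obtain ⟨T, hT, hTt, hc⟩ := conn_of_reachable hN1
  have hz3 : |z 0| < t / 2 := hz2
  have h3 := conn_lift hc
  rcases lt_trichotomy (z 0) 0 with h0 | h0 | h0
  · have h4 := h3.step (θ := -z 0) (by linarith) 1 (fun s => pt (-s) (prj n z))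
      (by simp only [neg_zero]) (fun s hs => by
        have d := deriv_pt (hasDerivWithinAt_const s (Icc 0 (-z 0)) (prj n z))
          (hasDerivWithinAt_id s (Icc 0 (-z 0))).neg
        exact d)
    simp only [neg_neg, pt_prj] at h4
    exact h4.mem_attainable (by linarith) (by rw [abs_of_neg h0] at hz3; linarith)
  · have e : pt 0 (prj n z) = z := by rw [← h0, pt_prj]
    rw [e] at h3
    exact h3.mem_attainable hT (by linarith)
  · have h4 := h3.step (θ := z 0) h0 0 (fun s => pt s (prj n z)) rfl (fun s hs => by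
        have d := deriv_pt (hasDerivWithinAt_const s (Icc 0 (z 0)) (prj n z))
          (hasDerivWithinAt_id s (Icc 0 (z 0)))
        exact d)
    simp only [pt_prj] at h4
    exact h4.mem_attainable (by linarith) (by rw [abs_of_pos h0] at hz3; linarith)

/-- The family has attainable sets which are flatter than all powers. -/
def Flat {n k : ℕ} (f : Fin k → E n → E n) : Prop :=
  ∀ N : ℕ, ∃ t₀ > 0, ∀ t, 0 < t → t < t₀ → ¬ Metric.closedBall (0 : E n) (t ^ N) ⊆ Attainable f t

lemma flat_ext {n k : ℕ} {f : Fin k → E n → E n} (hs : STLC f) (hf : Flat f) : Flat (ext f) := by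
  intro N
  obtain ⟨t₀, h0, h⟩ := hf N
  refine ⟨t₀, h0, fun t ht htt hsub => h t ht htt ?_⟩
  intro x hx
  have h1 : pt 0 x ∈ Metric.closedBall (0 : E (n + 1)) (t ^ N) := by
    rw [mem_closedBall_zero_iff] at hx ⊢
    have : ‖pt 0 x‖ = ‖x‖ := by
      simp [pt]
    rw [this]
    exact hx
  obtain ⟨M, hM⟩ := hsub h1
  obtain ⟨T, hT, hTt, hc⟩ := conn_of_reachable hM
  obtain ⟨T', a1, a2, a3, a4⟩ := conn_prj hc
  rw [prj_pt] at a3 a4
  rcases a1.eq_or_lt with a5 | a5
  · rw [a4 a5.symm]
    exact interior_subset (hs t ht)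
  · exact a3.mem_attainable a5 (by linarith)

/-- In EVERY dimension `n ≥ 5` there is a family of `2 * n - 2` polynomial vector fields on
`ℝ ^ n` which is small-time locally controllable at the origin, but for every `N` and all small
`t > 0` the attainable set in time less than `t` does not contain the closed ball of radius
`t ^ N`. -/
theorem result : ∀ n : ℕ, 5 ≤ n → ∃ f : Fin (2 * n - 2) → E n → E n,
    (∀ i, IsPolynomialField (f i) ∧ AnalyticOnNhd ℝ (f i) univ) ∧ STLC f ∧
    ∀ N : ℕ, ∃ t₀ > 0, ∀ t, 0 < t → t < t₀ →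
      ¬ Metric.closedBall (0 : E n) (t ^ N) ⊆ Attainable f t := by
  intro n hn
  suffices H : ∃ (k : ℕ) (f : Fin k → E n → E n), k = 2 * n - 2 ∧
      (∀ i, IsPolynomialField (f i) ∧ AnalyticOnNhd ℝ (f i) univ) ∧ STLC f ∧ Flat f by
    obtain ⟨k, f, rfl, h1, h2, h3⟩ := H
    exact ⟨f, h1, h2, h3⟩
  induction n, hn using Nat.le_induction with
  | base =>
    obtain ⟨f, h1, h2, h3⟩ := FlatReach.result
    exact ⟨8, f, rfl, h1, h2, h3⟩
  | succ n hn ih =>
    obtain ⟨k, f, hk, h1, h2, h3⟩ := ih
    exact ⟨k + 2, ext f, by omega, fun j => ⟨isPolynomial_ext (fun i => (h1 i).1) j,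
      analytic_ext (fun i => (h1 i).2) j⟩, stlc_ext h2, flat_ext h2 h3⟩

end Pool.Agent.Results.MP_d7bfcb_an.EveryDimensionFromFive
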